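import Pool.Agent.W957.MF.Final

/-! MP_080fe7_co, Q2: the principal Moebius function is unbounded on every hereditary class of
permutations that contains infinitely many simple permutations. -/

namespace Pool.Agent.Results.MP_080fe7_co.UnboundedMoebius

open Pool.Agent.W957.MF

theorem result (C : ∀ n : ℕ, Equiv.Perm (Fin n) → Prop)
    (hC : ∀ (k n : ℕ) (σ : Equiv.Perm (Fin k)) (π : Equiv.Perm (Fin n)),
      Contained σ π → C n π → C k σ)
    (hinf : {p : Σ n : ℕ, Equiv.Perm (Fin n) | C p.1 p.2 ∧ IsSimple p.2}.Infinite) :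
    ∀ c : ℤ, ∃ (n : ℕ) (π : Equiv.Perm (Fin n)), 1 ≤ n ∧ C n π ∧ c < |mu n π| := by
  intro c
  by_contra h
  refine main C hC hinf ⟨c, fun n π hn hπ => ?_⟩
  by_contra h2
  exact h ⟨n, π, hn, hπ, not_le.1 h2⟩

end Pool.Agent.Results.MP_080fe7_co.UnboundedMoebius
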